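import Mathlib

set_option autoImplicit false

namespace Pool.Agent.Results.MP_b124ce_co.Disproof

open Set

/-- An IE-operator on `S`: extensive, monotone, idempotent, with the exchange property (cl4'). -/
def IsIEOperator {S : Type} (f : Set S → Set S) : Prop :=
  (∀ X, X ⊆ f X) ∧ (∀ X Y, X ⊆ Y → f X ⊆ f Y) ∧ (∀ X, f (f X) = f X) ∧
    ∀ (X Y : Set S) (p : S), p ∈ f Y → p ∉ f (Y \ X) → ∃ x ∈ X, x ∈ f ((Y \ {x}) ∪ {p})

/-- Independent sets. -/
def Indep {S : Type} (f : Set S → Set S) (X : Set S) : Prop := ∀ x ∈ X, x ∉ f (X \ {x})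

/-- Condition (C). -/
def CondC {S : Type} (f : Set S → Set S) : Prop :=
  ∀ (Y : Set S) (p : S), p ∈ f Y →
    ∃ U, Minimal (fun U' : Set S => U' ⊆ Y ∧ p ∈ f U') U ∧ Indep f U

/-- Condition (H). -/
def CondH {S : Type} (f : Set S → Set S) : Prop :=
  ∀ (Y : Set S) (p : S), p ∉ f Y →
    ∃ V, Maximal (fun V' : Set S => Y ⊆ V' ∧ p ∉ f V') V ∧ f (V ∪ {p}) = Set.univ

/-- The restriction `f_X(Y) = f(Y) ∩ X` as an operator on the ground set `X`. -/
def restr {S : Type} (f : Set S → Set S) (X : Set S) : Set X → Set X :=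
  fun Y => Subtype.val ⁻¹' f (Subtype.val '' Y)

/-- `Y` is large for the family `F`. -/
def Large {S : Type} (F : Set (Set S)) (Y : Set S) : Prop :=
  ∃ A ∈ F, (A \ Y).Finite ∧ (A \ Y).encard ≤ (Y \ A).encard

open Classical in
/-- The uniform operator. -/
noncomputable def op {S : Type} (F : Set (Set S)) (Y : Set S) : Set S := if Large F Y then Set.univ else Y

theorem op_large {S : Type} {F : Set (Set S)} {Y : Set S} (h : Large F Y) : op F Y = Set.univ := if_pos h

theorem op_small {S : Type} {F : Set (Set S)} {Y : Set S} (h : ¬ Large F Y) : op F Y = Y := if_neg h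

theorem Large.mono {S : Type} {F : Set (Set S)} {Y Z : Set S} (h : Large F Y) (hYZ : Y ⊆ Z) : Large F Z := by
  obtain ⟨A, hA, h1, h2⟩ := h
  have h3 : A \ Z ⊆ A \ Y := diff_subset_diff_right hYZ
  have h4 : Y \ A ⊆ Z \ A := diff_subset_diff_left hYZ
  exact ⟨A, hA, h1.subset h3, (encard_le_encard h3).trans (h2.trans (encard_le_encard h4))⟩

/-- Swapping one element. -/
theorem swap_aux {S : Type} (A Y : Set S) (x p : S) (hx : x ∈ Y) (hp : p ∉ Y) (hfin : (A \ Y).Finite)
    (hle : (A \ Y).encard ≤ (Y \ A).encard) :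
    (A \ ((Y \ {x}) ∪ {p})).Finite ∧ (A \ ((Y \ {x}) ∪ {p})).encard ≤ (((Y \ {x}) ∪ {p}) \ A).encard := by
  classical
  have hxp : x ≠ p := fun h => hp (h ▸ hx)
  have hfin' : (A \ ((Y \ {x}) ∪ {p})).Finite := by
    refine (hfin.union (finite_singleton x)).subset ?_
    intro z hz
    by_cases hzx : z = x
    · exact Or.inr hzx
    · refine Or.inl ⟨hz.1, fun hzY => hz.2 (Or.inl ⟨hzY, hzx⟩)⟩
  refine ⟨hfin', ?_⟩
  by_cases hinf : (Y \ A).Finite
  · have hinf' : (((Y \ {x}) ∪ {p}) \ A).Finite := by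
      refine (hinf.union (finite_singleton p)).subset ?_
      rintro z ⟨(⟨hz1, hz2⟩ | hz), hzA⟩
      · exact Or.inl ⟨hz1, hzA⟩
      · exact Or.inr hz
    rw [← hfin.cast_ncard_eq, ← hinf.cast_ncard_eq] at hle
    rw [← hfin'.cast_ncard_eq, ← hinf'.cast_ncard_eq]
    have hle' : (A \ Y).ncard ≤ (Y \ A).ncard := by exact_mod_cast hle
    have goal : (A \ ((Y \ {x}) ∪ {p})).ncard ≤ (((Y \ {x}) ∪ {p}) \ A).ncard := by
      -- sets without x and p
      have e1 : (A \ Y).ncard = (A \ (Y ∪ {p})).ncard + (if p ∈ A then 1 else 0) := by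
        by_cases hpA : p ∈ A
        · rw [if_pos hpA]
          have : A \ Y = insert p (A \ (Y ∪ {p})) := by
            ext z
            simp only [mem_diff, mem_insert_iff, mem_union, mem_singleton_iff, not_or]
            constructor
            · rintro ⟨h1, h2⟩
              by_cases hz : z = p
              · exact Or.inl hz
              · exact Or.inr ⟨h1, h2, hz⟩
            · rintro (rfl | ⟨h1, h2, _⟩)
              · exact ⟨hpA, hp⟩
              · exact ⟨h1, h2⟩
          have hnm : p ∉ A \ (Y ∪ {p}) := fun h => h.2 (Or.inr rfl)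
          rw [this, ncard_insert_of_notMem hnm (hfin.subset
            (diff_subset_diff_right subset_union_left))]
        · rw [if_neg hpA, add_zero]
          congr 1
          ext z
          simp only [mem_diff, mem_union, mem_singleton_iff, not_or]
          constructor
          · rintro ⟨h1, h2⟩
            exact ⟨h1, h2, fun hz => hpA (hz ▸ h1)⟩
          · rintro ⟨h1, h2, _⟩
            exact ⟨h1, h2⟩
      have e2 : (A \ ((Y \ {x}) ∪ {p})).ncard = (A \ (Y ∪ {p})).ncard + (if x ∈ A then 1 else 0) := by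
        by_cases hxA : x ∈ A
        · rw [if_pos hxA]
          have : A \ ((Y \ {x}) ∪ {p}) = insert x (A \ (Y ∪ {p})) := by
            ext z
            simp only [mem_diff, mem_insert_iff, mem_union, mem_singleton_iff, not_or, not_and, not_not]
            constructor
            · rintro ⟨h1, h2, h3⟩
              by_cases hz : z = x
              · exact Or.inl hz
              · exact Or.inr ⟨h1, fun hzY => hz (h2 hzY), h3⟩
            · rintro (rfl | ⟨h1, h2, h3⟩)
              · exact ⟨hxA, fun _ => rfl, hxp⟩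
              · exact ⟨h1, fun hzY => absurd hzY h2, h3⟩
          rw [this, ncard_insert_of_notMem (fun h => h.2 (Or.inl hx)) (hfin.subset
            (diff_subset_diff_right subset_union_left))]
        · rw [if_neg hxA, add_zero]
          congr 1
          ext z
          simp only [mem_diff, mem_union, mem_singleton_iff, not_or, not_and, not_not]
          constructor
          · rintro ⟨h1, h2, h3⟩
            exact ⟨h1, fun hzY => hxA ((h2 hzY) ▸ h1), h3⟩
          · rintro ⟨h1, h2, h3⟩
            exact ⟨h1, fun hzY => absurd hzY h2, h3⟩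
      have e3 : (Y \ A).ncard = ((Y \ {x}) \ A).ncard + (if x ∈ A then 0 else 1) := by
        by_cases hxA : x ∈ A
        · rw [if_pos hxA, add_zero]
          congr 1
          ext z
          simp only [mem_diff, mem_singleton_iff]
          constructor
          · rintro ⟨h1, h2⟩
            exact ⟨⟨h1, fun hz => h2 (hz ▸ hxA)⟩, h2⟩
          · rintro ⟨⟨h1, _⟩, h2⟩
            exact ⟨h1, h2⟩
        · rw [if_neg hxA]
          have : Y \ A = insert x ((Y \ {x}) \ A) := by
            ext z
            simp only [mem_diff, mem_insert_iff, mem_singleton_iff]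
            constructor
            · rintro ⟨h1, h2⟩
              by_cases hz : z = x
              · exact Or.inl hz
              · exact Or.inr ⟨⟨h1, hz⟩, h2⟩
            · rintro (rfl | ⟨⟨h1, _⟩, h2⟩)
              · exact ⟨hx, hxA⟩
              · exact ⟨h1, h2⟩
          have hnm : x ∉ (Y \ {x}) \ A := fun h => h.1.2 rfl
          rw [this, ncard_insert_of_notMem hnm (hinf.subset
            (diff_subset_diff_left diff_subset))]
      have e4 : (((Y \ {x}) ∪ {p}) \ A).ncard = ((Y \ {x}) \ A).ncard + (if p ∈ A then 0 else 1) := by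
        by_cases hpA : p ∈ A
        · rw [if_pos hpA, add_zero]
          congr 1
          ext z
          simp only [mem_diff, mem_union, mem_singleton_iff]
          constructor
          · rintro ⟨h1 | h1, h2⟩
            · exact ⟨h1, h2⟩
            · exact absurd (h1 ▸ hpA) h2
          · rintro ⟨h1, h2⟩
            exact ⟨Or.inl h1, h2⟩
        · rw [if_neg hpA]
          have : ((Y \ {x}) ∪ {p}) \ A = insert p ((Y \ {x}) \ A) := by
            ext z
            simp only [mem_diff, mem_insert_iff, mem_union, mem_singleton_iff]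
            constructor
            · rintro ⟨h1 | h1, h2⟩
              · exact Or.inr ⟨h1, h2⟩
              · exact Or.inl h1
            · rintro (rfl | ⟨h1, h2⟩)
              · exact ⟨Or.inr rfl, hpA⟩
              · exact ⟨Or.inl h1, h2⟩
          rw [this, ncard_insert_of_notMem (fun h => hp h.1.1) (hinf.subset
            (diff_subset_diff_left diff_subset))]
      split_ifs at e1 e2 e3 e4 <;> omega
    exact_mod_cast goal
  · have hinf' : (((Y \ {x}) ∪ {p}) \ A).Infinite := by
      intro hc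
      apply hinf
      refine (hc.union (finite_singleton x)).subset ?_
      rintro z ⟨hz1, hz2⟩
      by_cases hzx : z = x
      · exact Or.inr hzx
      · exact Or.inl ⟨Or.inl ⟨hz1, hzx⟩, hz2⟩
    rw [hinf'.encard_eq]
    exact le_top

theorem Large.swap {S : Type} {F : Set (Set S)} {Y : Set S} (h : Large F Y) {x p : S} (hx : x ∈ Y) (hp : p ∉ Y) :
    Large F ((Y \ {x}) ∪ {p}) := by
  obtain ⟨A, hA, h1, h2⟩ := h
  obtain ⟨h3, h4⟩ := swap_aux A Y x p hx hp h1 h2
  exact ⟨A, hA, h3, h4⟩

theorem isIE {S : Type} (F : Set (Set S)) : IsIEOperator (op F) := by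
  refine ⟨?_, ?_, ?_, ?_⟩
  · intro X
    by_cases h : Large F X
    · rw [op_large h]
      exact subset_univ X
    · rw [op_small h]
  · intro X Y hXY
    by_cases h : Large F Y
    · rw [op_large h]
      exact subset_univ _
    · rw [op_small h, op_small (fun h' => h (h'.mono hXY))]
      exact hXY
  · intro X
    by_cases h : Large F X
    · rw [op_large h, op_large (h.mono (subset_univ X))]
    · rw [op_small h, op_small h]
  · intro X Y p hp hp'
    by_cases hpY : p ∈ Y
    · have hpX : p ∈ X := by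
        by_contra hpX
        apply hp'
        by_cases h : Large F (Y \ X)
        · rw [op_large h]
          exact mem_univ p
        · rw [op_small h]
          exact ⟨hpY, hpX⟩
      refine ⟨p, hpX, ?_⟩
      by_cases h : Large F ((Y \ {p}) ∪ {p})
      · rw [op_large h]
        exact mem_univ p
      · rw [op_small h]
        exact Or.inr rfl
    · have hY : Large F Y := by
        by_contra h
        rw [op_small h] at hp
        exact hpY hp
      have hYX : ¬ Large F (Y \ X) := by
        intro h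
        rw [op_large h] at hp'
        exact hp' (mem_univ p)
      obtain ⟨x, hxX, hxY⟩ : ∃ x ∈ X, x ∈ Y := by
        by_contra hc
        push Not at hc
        apply hYX
        have : Y \ X = Y := by
          ext z
          exact ⟨fun h => h.1, fun h => ⟨h, fun hz => hc z hz h⟩⟩
        rw [this]
        exact hY
      refine ⟨x, hxX, ?_⟩
      rw [op_large (hY.swap hxY hpY)]
      exact mem_univ x


/-- Families of pairwise incomparable (modulo finite) sets. -/
def PW {S : Type} (F : Set (Set S)) : Prop := F.Pairwise (fun A B => (A \ B).Infinite)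

/-- A base near `A`: any large subset of it is everything. -/
theorem base_min {S : Type} {F : Set (Set S)} (hF : PW F) {A B : Set S} (hA : A ∈ F)
    (h1 : (B \ A).Finite) (h2 : (A \ B).Finite) (h3 : (B \ A).encard = (A \ B).encard)
    {U : Set S} (hU : U ⊆ B) (hL : Large F U) : U = B := by
  obtain ⟨A', hA', h4, h5⟩ := hL
  have hAA : A' = A := by
    by_contra hne
    apply hF hA' hA hne
    refine (h4.union h1).subset ?_
    intro z hz
    by_cases hzU : z ∈ U
    · exact Or.inr ⟨hU hzU, hz.2⟩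
    · exact Or.inl ⟨hz.1, hzU⟩
  subst hAA
  have s1 : A' \ B ⊆ A' \ U := diff_subset_diff_right hU
  have s2 : U \ A' ⊆ B \ A' := diff_subset_diff_left hU
  have c1 := encard_le_encard s1
  have c2 := encard_le_encard s2
  have e1 : A' \ B = A' \ U := by
    apply h4.eq_of_subset_of_encard_le' s1
    exact h5.trans (c2.trans h3.le)
  have e2 : U \ A' = B \ A' := by
    apply h1.eq_of_subset_of_encard_le' s2
    rw [h3]
    exact c1.trans h5
  apply Subset.antisymm hU
  intro z hz
  by_cases hzA : z ∈ A'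
  · by_contra hzU
    have : z ∈ A' \ B := by
      rw [e1]
      exact ⟨hzA, hzU⟩
    exact this.2 hz
  · have : z ∈ U \ A' := by
      rw [e2]
      exact ⟨hz, hzA⟩
    exact this.1

theorem condC {S : Type} {F : Set (Set S)} (hF : PW F) (hinf : ∀ A ∈ F, A.Infinite) : CondC (op F) := by
  intro Y p hp
  have hempty : ¬ Large F (∅ : Set S) := by
    rintro ⟨A, hA, h, _⟩
    rw [diff_empty] at h
    exact hinf A hA h
  by_cases hpY : p ∈ Y
  · refine ⟨{p}, ⟨⟨singleton_subset_iff.mpr hpY, (isIE F).1 _ rfl⟩, ?_⟩, ?_⟩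
    · rintro U' ⟨_, hU'⟩ hsub
      rcases subset_singleton_iff_eq.mp hsub with h | h
      · rw [h, op_small hempty] at hU'
        exact absurd hU' (notMem_empty p)
      · rw [h]
    · intro x hx
      rw [mem_singleton_iff] at hx
      subst hx
      rw [diff_self, op_small hempty]
      exact notMem_empty x
  · have hL : Large F Y := by
      by_contra h
      rw [op_small h] at hp
      exact hpY hp
    obtain ⟨A, hA, h1, h2⟩ := hL
    obtain ⟨T, hT, hTc⟩ := exists_subset_encard_eq h2
    have hTfin : T.Finite := by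
      apply finite_of_encard_le_coe (k := (A \ Y).ncard)
      rw [hTc, h1.cast_ncard_eq]
    have hBA : ((A ∩ Y) ∪ T) \ A = T := by
      ext z
      constructor
      · rintro ⟨h | h, h'⟩
        · exact absurd h.1 h'
        · exact h
      · intro h
        exact ⟨Or.inr h, (hT h).2⟩
    have hAB : A \ ((A ∩ Y) ∪ T) = A \ Y := by
      ext z
      constructor
      · rintro ⟨h, h'⟩
        exact ⟨h, fun hY => h' (Or.inl ⟨h, hY⟩)⟩
      · rintro ⟨h, h'⟩
        refine ⟨h, ?_⟩
        rintro (h'' | h'')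
        · exact h' h''.2
        · exact h' (hT h'').1
    have hBY : (A ∩ Y) ∪ T ⊆ Y := by
      rintro z (h | h)
      · exact h.2
      · exact (hT h).1
    have hBL : Large F ((A ∩ Y) ∪ T) := by
      refine ⟨A, hA, ?_, ?_⟩
      · rw [hAB]
        exact h1
      · rw [hAB, hBA, hTc]
    have hmin : ∀ U : Set S, U ⊆ (A ∩ Y) ∪ T → Large F U → U = (A ∩ Y) ∪ T := by
      intro U hU hUL
      refine base_min hF hA ?_ ?_ ?_ hU hUL
      · rw [hBA]
        exact hTfin
      · rw [hAB]
        exact h1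
      · rw [hAB, hBA, hTc]
    refine ⟨(A ∩ Y) ∪ T, ⟨⟨hBY, ?_⟩, ?_⟩, ?_⟩
    · rw [op_large hBL]
      exact mem_univ p
    · rintro U' ⟨hU'Y, hU'⟩ hsub
      have hUL : Large F U' := by
        by_contra h
        rw [op_small h] at hU'
        exact hpY (hU'Y hU')
      rw [hmin U' hsub hUL]
    · intro x hx hx'
      have hUL : Large F (((A ∩ Y) ∪ T) \ {x}) := by
        by_contra h
        rw [op_small h] at hx'
        exact hx'.2 rfl
      have := hmin _ diff_subset hUL
      rw [← this] at hx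
      exact hx.2 rfl

theorem condH {S : Type} {F : Set (Set S)} (hF : PW F)
    (hmax : ∀ Y : Set S, ∃ A ∈ F, (A \ Y).Finite ∨ (Y \ A).Finite) : CondH (op F) := by
  intro Y p hp
  have hpY : p ∉ Y := fun h => hp ((isIE F).1 Y h)
  have hnL : ¬ Large F Y := by
    intro h
    rw [op_large h] at hp
    exact hp (mem_univ p)
  obtain ⟨A, hA, h1, h2⟩ : ∃ A ∈ F, (Y \ A).Finite ∧ (Y \ A).encard < (A \ Y).encard := by
    obtain ⟨A, hA, h⟩ := hmax Y
    by_cases hfin : (A \ Y).Finite
    · have hlt : (Y \ A).encard < (A \ Y).encard := by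
        by_contra hc
        exact hnL ⟨A, hA, hfin, not_lt.mp hc⟩
      refine ⟨A, hA, ?_, hlt⟩
      apply finite_of_encard_le_coe (k := (A \ Y).ncard)
      rw [hfin.cast_ncard_eq]
      exact hlt.le
    · have hfin2 := h.resolve_left hfin
      refine ⟨A, hA, hfin2, ?_⟩
      rw [Set.Infinite.encard_eq hfin]
      exact hfin2.encard_lt_top
  have h1' : ((Y ∪ {p}) \ A).Finite := by
    refine (h1.union (finite_singleton p)).subset ?_
    rintro z ⟨h | h, h'⟩
    · exact Or.inl ⟨h, h'⟩
    · exact Or.inr h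
  have h2' : ((Y ∪ {p}) \ A).encard ≤ (A \ (Y ∪ {p})).encard := by
    by_cases hpA : p ∈ A
    · have e1 : (Y ∪ {p}) \ A = Y \ A := by
        ext z
        constructor
        · rintro ⟨h | h, h'⟩
          · exact ⟨h, h'⟩
          · exact absurd (h ▸ hpA) h'
        · rintro ⟨h, h'⟩
          exact ⟨Or.inl h, h'⟩
      have e2 : A \ Y = insert p (A \ (Y ∪ {p})) := by
        ext z
        simp only [mem_diff, mem_insert_iff, mem_union, mem_singleton_iff, not_or]
        constructor
        · rintro ⟨h1, h2⟩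
          by_cases hz : z = p
          · exact Or.inl hz
          · exact Or.inr ⟨h1, h2, hz⟩
        · rintro (rfl | ⟨h1, h2, _⟩)
          · exact ⟨hpA, hpY⟩
          · exact ⟨h1, h2⟩
      have hnm : p ∉ A \ (Y ∪ {p}) := fun h => h.2 (Or.inr rfl)
      rw [e2, encard_insert_of_notMem hnm] at h2
      rw [e1]
      exact Order.le_of_lt_add_one h2
    · have e1 : (Y ∪ {p}) \ A = insert p (Y \ A) := by
        ext z
        simp only [mem_diff, mem_insert_iff, mem_union, mem_singleton_iff]
        constructor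
        · rintro ⟨h | h, h'⟩
          · exact Or.inr ⟨h, h'⟩
          · exact Or.inl h
        · rintro (rfl | ⟨h, h'⟩)
          · exact ⟨Or.inr rfl, hpA⟩
          · exact ⟨Or.inl h, h'⟩
      have e2 : A \ (Y ∪ {p}) = A \ Y := by
        ext z
        simp only [mem_diff, mem_union, mem_singleton_iff, not_or]
        constructor
        · rintro ⟨h, h', _⟩
          exact ⟨h, h'⟩
        · rintro ⟨h, h'⟩
          exact ⟨h, h', fun hz => hpA (hz ▸ h)⟩
      rw [e1, e2, encard_insert_of_notMem (fun h => hpY h.1)]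
      exact Order.add_one_le_of_lt h2
  obtain ⟨T, hT, hTc⟩ := exists_subset_encard_eq h2'
  have hTfin : T.Finite := by
    apply finite_of_encard_le_coe (k := ((Y ∪ {p}) \ A).ncard)
    rw [hTc, h1'.cast_ncard_eq]
  obtain ⟨B, hB⟩ : ∃ B, B = (Y ∪ {p}) ∪ (A \ T) := ⟨_, rfl⟩
  have hBA : B \ A = (Y ∪ {p}) \ A := by
    ext z
    rw [hB]
    constructor
    · rintro ⟨h | h, h'⟩
      · exact ⟨h, h'⟩
      · exact absurd h.1 h'
    · rintro ⟨h, h'⟩
      exact ⟨Or.inl h, h'⟩
  have hAB : A \ B = T := by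
    ext z
    rw [hB]
    constructor
    · rintro ⟨h, h'⟩
      by_contra hzT
      exact h' (Or.inr ⟨h, hzT⟩)
    · intro h
      refine ⟨(hT h).1, ?_⟩
      rintro (h' | h')
      · exact (hT h).2 h'
      · exact h'.2 h
  have hBL : Large F B := by
    refine ⟨A, hA, ?_, ?_⟩
    · rw [hAB]
      exact hTfin
    · rw [hAB, hBA, hTc]
  have hmin : ∀ U : Set S, U ⊆ B → Large F U → U = B := by
    intro U hU hUL
    refine base_min hF hA ?_ ?_ ?_ hU hUL
    · rw [hBA]
      exact h1'
    · rw [hAB]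
      exact hTfin
    · rw [hAB, hBA, hTc]
  have hpB : p ∈ B := by
    rw [hB]
    exact Or.inl (Or.inr rfl)
  have hVL : ¬ Large F (B \ {p}) := by
    intro h
    have := hmin _ diff_subset h
    rw [← this] at hpB
    exact hpB.2 rfl
  have hVp : (B \ {p}) ∪ {p} = B := by
    rw [diff_union_self]
    exact union_eq_left.mpr (singleton_subset_iff.mpr hpB)
  refine ⟨B \ {p}, ⟨⟨?_, ?_⟩, ?_⟩, ?_⟩
  · intro z hz
    refine ⟨?_, fun h => hpY (h ▸ hz)⟩
    rw [hB]
    exact Or.inl (Or.inl hz)
  · rw [op_small hVL]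
    exact fun h => h.2 rfl
  · rintro V' ⟨_, hV'⟩ hsub
    have hpV' : p ∉ V' := fun h => hV' ((isIE F).1 V' h)
    have hV'L : ¬ Large F V' := by
      intro h
      rw [op_large h] at hV'
      exact hV' (mem_univ p)
    intro x hx
    by_contra hxV
    have hxp : x ≠ p := fun h => hpV' (h ▸ hx)
    have hxB : x ∉ B := fun h => hxV ⟨h, hxp⟩
    have hsw := hBL.swap hpB hxB
    apply hV'L
    refine hsw.mono ?_
    rintro z (h | h)
    · exact hsub h
    · rw [mem_singleton_iff] at h
      rw [h]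
      exact hx
  · rw [hVp, op_large hBL]

/-! ### The ground set and the starting family -/

/-- The ground set. -/
abbrev G : Type := ℕ ⊕ ℕ ⊕ (Finset ℕ × ℕ)

def Yset : Set G := {g | ∃ n, g = Sum.inl n}

def Cs (w : Set ℕ) : Set G := {g | ∃ n ∈ w, g = Sum.inr (Sum.inl n)}

def Os (w : Set ℕ) : Set G := {g | ∃ (E : Finset ℕ) (n : ℕ), (∀ k, k ∈ E ↔ k ∈ w ∧ k < n) ∧ g = Sum.inr (Sum.inr (E, n))}

def b (w : Set ℕ) : Set G := Yset ∪ Cs w ∪ Os w

def F0 : Set (Set G) := {A | A = Cs Set.univ ∨ ∃ w : Set ℕ, (wᶜ).Infinite ∧ A = b w}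

theorem Yset_inf : Yset.Infinite := by
  have : (Set.range (fun n : ℕ => (Sum.inl n : G))).Infinite :=
    Set.infinite_range_of_injective Sum.inl_injective
  refine this.mono ?_
  rintro _ ⟨n, rfl⟩
  exact ⟨n, rfl⟩

theorem Cs_inf {w : Set ℕ} (hw : w.Infinite) : (Cs w).Infinite := by
  have : ((fun n : ℕ => (Sum.inr (Sum.inl n) : G)) '' w).Infinite :=
    hw.image (Set.injOn_of_injective (Sum.inr_injective.comp Sum.inl_injective))
  refine this.mono ?_
  rintro _ ⟨n, hn, rfl⟩
  exact ⟨n, hn, rfl⟩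

open Classical in
noncomputable def cut (w : Set ℕ) (n : ℕ) : Finset ℕ := (Finset.range n).filter (· ∈ w)

theorem mem_cut (w : Set ℕ) (n k : ℕ) : k ∈ cut w n ↔ k ∈ w ∧ k < n := by
  classical
  unfold cut
  rw [Finset.mem_filter, Finset.mem_range]
  exact and_comm

theorem Os_inf (w : Set ℕ) : (Os w).Infinite := by
  have : (Set.range (fun n : ℕ => (Sum.inr (Sum.inr (cut w n, n)) : G))).Infinite := by
    apply Set.infinite_range_of_injective
    intro m n h
    have h1 := Sum.inr_injective (Sum.inr_injective h)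
    exact (Prod.mk.inj h1).2
  refine this.mono ?_
  rintro _ ⟨n, rfl⟩
  exact ⟨cut w n, n, fun k => mem_cut w n k, rfl⟩

theorem Os_diff {w w' : Set ℕ} (h : w ≠ w') : (Os w \ Os w').Infinite := by
  obtain ⟨k, hk⟩ : ∃ k, ¬ (k ∈ w ↔ k ∈ w') := by
    by_contra hc
    exact h (Set.ext fun k => not_not.mp (fun h' => hc ⟨k, h'⟩))
  have : (Set.range (fun n : ℕ => (Sum.inr (Sum.inr (cut w (n + k + 1), n + k + 1)) : G))).Infinite := by
    apply Set.infinite_range_of_injective
    intro m n h
    have h1 := Sum.inr_injective (Sum.inr_injective h)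
    have h2 := (Prod.mk.inj h1).2
    omega
  refine this.mono ?_
  rintro _ ⟨n, rfl⟩
  refine ⟨⟨_, _, fun k => mem_cut w _ k, rfl⟩, ?_⟩
  rintro ⟨E, m, hE, heq⟩
  have h1 := Sum.inr_injective (Sum.inr_injective heq)
  obtain ⟨h2, h3⟩ := Prod.mk.inj h1
  subst h2
  subst h3
  have h4 := hE k
  rw [mem_cut] at h4
  apply hk
  constructor
  · intro h5
    exact (h4.mp ⟨h5, by omega⟩).1
  · intro h5
    exact (h4.mpr ⟨h5, by omega⟩).1

theorem PW_F0 : PW F0 := by
  rintro A (hA | ⟨w, hw, hA⟩) B (hB | ⟨w', hw', hB⟩) hne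
  · exact absurd (hA.trans hB.symm) hne
  · subst hA
    subst hB
    refine (Cs_inf hw').mono ?_
    rintro _ ⟨n, hn, rfl⟩
    refine ⟨⟨n, mem_univ n, rfl⟩, ?_⟩
    rintro ((⟨m, hm⟩ | ⟨m, hm, h⟩) | ⟨E, m, _, h⟩)
    · cases hm
    · have := Sum.inl_injective (Sum.inr_injective h)
      exact hn (this ▸ hm)
    · have := Sum.inr_injective h
      cases this
  · subst hA
    subst hB
    refine Yset_inf.mono ?_
    rintro _ ⟨n, rfl⟩
    refine ⟨Or.inl (Or.inl ⟨n, rfl⟩), ?_⟩
    rintro ⟨m, _, h⟩
    cases h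
  · subst hA
    subst hB
    have hww : w ≠ w' := fun h => hne (by rw [h])
    refine (Os_diff hww).mono ?_
    rintro g ⟨⟨E, m, hE, rfl⟩, hg⟩
    refine ⟨Or.inr ⟨E, m, hE, rfl⟩, ?_⟩
    rintro ((⟨m, hm⟩ | ⟨m, hm, h⟩) | h)
    · cases hm
    · have := Sum.inr_injective h
      cases this
    · exact hg h

theorem exists_max : ∃ F : Set (Set G), F0 ⊆ F ∧ PW F ∧ ∀ Y : Set G, ∃ A ∈ F, (A \ Y).Finite ∨ (Y \ A).Finite := by
  obtain ⟨F, hF0, hFmax⟩ := zorn_subset_nonempty {F : Set (Set G) | PW F} (by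
    intro c hc hchain hcne
    refine ⟨⋃₀ c, ?_, fun s hs => subset_sUnion_of_mem hs⟩
    exact (pairwise_sUnion hchain.directedOn).mpr (fun s hs => hc hs)) F0 PW_F0
  refine ⟨F, hF0, hFmax.prop, ?_⟩
  intro Y
  by_contra hc
  push Not at hc
  have hY : Y ∉ F := by
    intro h
    have := (hc Y h).1
    rw [diff_self] at this
    exact this finite_empty
  have h1 : insert Y F ∈ {F : Set (Set G) | PW F} := by
    refine Set.Pairwise.insert hFmax.prop ?_
    intro A hA hne
    exact ⟨(hc A hA).2, (hc A hA).1⟩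
  exact hY (hFmax.le_of_ge h1 (subset_insert Y F) (mem_insert Y F))

theorem result : ¬ ∀ (S : Type) (f : Set S → Set S), IsIEOperator f → CondC f → CondH f →
    ∀ X : Set S, CondH (restr f X) := by
  intro H
  obtain ⟨F, hF0, hPW, hmax⟩ := exists_max
  have hCs : Cs Set.univ ∈ F := hF0 (Or.inl rfl)
  have hb : ∀ w : Set ℕ, (wᶜ).Infinite → b w ∈ F := fun w hw => hF0 (Or.inr ⟨w, hw, rfl⟩)
  have hcomp : ∀ A ∈ F, ∀ B ∈ F, (A \ B).Finite → A = B := by
    intro A hA B hB h
    by_contra hne
    exact hPW hA hB hne h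
  have hb0 : b ∅ ∈ F := hb ∅ (by rw [compl_empty]; exact infinite_univ)
  have hbe : b {n | Even n} ∈ F := hb _ (by
    refine (Set.infinite_range_of_injective (f := fun n : ℕ => 2 * n + 1) ?_).mono ?_
    · intro m n h
      have : 2 * m + 1 = 2 * n + 1 := h
      omega
    · rintro _ ⟨n, rfl⟩
      intro h
      have h' : Even (2 * n + 1) := h
      rw [Nat.even_iff] at h'
      omega)
  have hYb : ∀ w, Yset ⊆ b w := fun w z hz => Or.inl (Or.inl hz)
  have hbne : b ∅ ≠ b {n | Even n} := by
    intro h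
    have : (Sum.inr (Sum.inl 0) : G) ∈ b ∅ := by
      rw [h]
      exact Or.inl (Or.inr ⟨0, by simp, rfl⟩)
    rcases this with (⟨m, hm⟩ | ⟨m, hm, _⟩) | ⟨E, m, _, h⟩
    · cases hm
    · exact hm
    · have := Sum.inr_injective h
      cases this
  have hCsb : Cs Set.univ ≠ b ∅ := by
    intro h
    have : (Sum.inl 0 : G) ∈ Cs Set.univ := by
      rw [h]
      exact hYb ∅ ⟨0, rfl⟩
    obtain ⟨m, _, hm⟩ := this
    cases hm
  have hinf : ∀ A ∈ F, A.Infinite := by
    intro A hA hfin
    have h1 := hcomp A hA _ hCs (hfin.subset diff_subset)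
    have h2 := hcomp A hA _ hb0 (hfin.subset diff_subset)
    exact hCsb (h1.symm.trans h2)
  have key := H G (op F) (isIE F) (condC hPW hinf) (condH hPW hmax)
    (Yset ∪ Cs Set.univ)
  have hYnL : ¬ Large F Yset := by
    rintro ⟨A, hA, h, _⟩
    have h1 := hcomp A hA _ hb0 (h.subset (diff_subset_diff_right (hYb _)))
    have h2 := hcomp A hA _ hbe (h.subset (diff_subset_diff_right (hYb _)))
    exact hbne (h1.symm.trans h2)
  have himg : (Subtype.val '' (Subtype.val ⁻¹' Yset : Set ↥(Yset ∪ Cs Set.univ))) = Yset := by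
    rw [Subtype.image_preimage_coe]
    exact inter_eq_right.mpr subset_union_left
  have hp0 : (Sum.inr (Sum.inl 0) : G) ∉ Yset := by
    rintro ⟨m, hm⟩
    cases hm
  obtain ⟨V, ⟨⟨hV1, hV2⟩, _⟩, hV3⟩ := key (Subtype.val ⁻¹' Yset)
    ⟨Sum.inr (Sum.inl 0), Or.inr ⟨0, mem_univ 0, rfl⟩⟩ (by
      intro h
      have h' : (Sum.inr (Sum.inl 0) : G) ∈ op F (Subtype.val '' (Subtype.val ⁻¹' Yset : Set ↥(Yset ∪ Cs Set.univ))) := h
      rw [himg, op_small hYnL] at h'
      exact hp0 h')
  obtain ⟨W, hW⟩ : ∃ W : Set G, W = Subtype.val '' V := ⟨_, rfl⟩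
  have hWX : W ⊆ Yset ∪ Cs Set.univ := by
    rw [hW]
    rintro _ ⟨v, _, rfl⟩
    exact v.2
  have hYW : Yset ⊆ W := by
    intro z hz
    rw [hW]
    exact ⟨⟨z, Or.inl hz⟩, hV1 hz, rfl⟩
  have hpW : (Sum.inr (Sum.inl 0) : G) ∉ op F W := by
    rw [hW]
    exact hV2
  have hWL : ¬ Large F W := by
    intro h
    rw [op_large h] at hpW
    exact hpW (mem_univ _)
  have hspan : Yset ∪ Cs Set.univ ⊆ op F (W ∪ {Sum.inr (Sum.inl 0)}) := by
    intro z hz
    have : (⟨z, hz⟩ : ↥(Yset ∪ Cs Set.univ)) ∈ restr (op F) (Yset ∪ Cs Set.univ) (V ∪ {⟨Sum.inr (Sum.inl 0), Or.inr ⟨0, mem_univ 0, rfl⟩⟩}) := by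
      rw [hV3]
      exact mem_univ _
    have h' : z ∈ op F (Subtype.val '' (V ∪ {⟨Sum.inr (Sum.inl 0), Or.inr ⟨0, mem_univ 0, rfl⟩⟩} : Set ↥(Yset ∪ Cs Set.univ))) := this
    rw [image_union, image_singleton, ← hW] at h'
    exact h'
  by_cases hL : Large F (W ∪ {Sum.inr (Sum.inl 0)})
  · obtain ⟨A, hA, h1, h2⟩ := hL
    have hAW : (A \ W).Finite := by
      refine (h1.union (finite_singleton (Sum.inr (Sum.inl 0)))).subset ?_
      intro z hz
      by_cases hz0 : z = Sum.inr (Sum.inl 0)
      · exact Or.inr hz0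
      · refine Or.inl ⟨hz.1, ?_⟩
        rintro (h | h)
        · exact hz.2 h
        · exact hz0 h
    have hWA : (W \ A).Finite := by
      have hlt : (W \ A).encard < (A \ W).encard := by
        by_contra hc
        exact hWL ⟨A, hA, hAW, not_lt.mp hc⟩
      apply finite_of_encard_le_coe (k := (A \ W).ncard)
      rw [hAW.cast_ncard_eq]
      exact hlt.le
    have hYA : (Yset \ A).Finite := hWA.subset (diff_subset_diff_left hYW)
    have hAX : (A \ (Yset ∪ Cs Set.univ)).Finite := hAW.subset (diff_subset_diff_right hWX)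
    by_cases hCA : (Cs Set.univ \ A).Finite
    · have h3 := hcomp _ hCs A hA hCA
      subst h3
      apply Yset_inf
      refine hYA.subset ?_
      rintro z ⟨n, rfl⟩
      refine ⟨⟨n, rfl⟩, ?_⟩
      rintro ⟨m, _, hm⟩
      cases hm
    · obtain ⟨w, hw⟩ : ∃ w : Set ℕ, w = {n | (Sum.inr (Sum.inl n) : G) ∈ A} := ⟨_, rfl⟩
      have hwc : (wᶜ).Infinite := by
        intro hc
        apply hCA
        refine (hc.image (fun n : ℕ => (Sum.inr (Sum.inl n) : G))).subset ?_
        rintro _ ⟨⟨n, _, rfl⟩, h⟩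
        refine ⟨n, ?_, rfl⟩
        intro h'
        rw [hw] at h'
        exact h h'
      have h3 : A = b w := by
        apply hcomp A hA _ (hb w hwc)
        refine hAX.subset ?_
        rintro z ⟨hz1, hz2⟩
        refine ⟨hz1, ?_⟩
        rintro (h | ⟨n, _, rfl⟩)
        · exact hz2 (hYb _ h)
        · apply hz2
          refine Or.inl (Or.inr ⟨n, ?_, rfl⟩)
          rw [hw]
          exact hz1
      apply Os_inf w
      refine hAX.subset ?_
      intro z hz
      refine ⟨?_, ?_⟩
      · rw [h3]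
        exact Or.inr hz
      · obtain ⟨E, m, _, rfl⟩ := hz
        rintro (⟨n, h⟩ | ⟨n, _, h⟩)
        · cases h
        · have := Sum.inr_injective h
          cases this
  · rw [op_small hL] at hspan
    apply hWL
    have hsub : Cs Set.univ \ W ⊆ {Sum.inr (Sum.inl 0)} := by
      rintro z ⟨hz, hz'⟩
      exact (hspan (Or.inr hz)).resolve_left hz'
    refine ⟨Cs Set.univ, hCs, (finite_singleton _).subset hsub, ?_⟩
    have : (W \ Cs Set.univ).Infinite := by
      refine Yset_inf.mono ?_
      intro z hz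
      refine ⟨hYW hz, ?_⟩
      obtain ⟨n, rfl⟩ := hz
      rintro ⟨m, _, hm⟩
      cases hm
    rw [this.encard_eq]
    exact le_top

end Pool.Agent.Results.MP_b124ce_co.Disproof
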